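import Pool.Agent.Q93.Asym.Defs

/-!
Basic facts on `L`-asymptotic limits.
-/

namespace Q93.Asym

open Topology Filter
open scoped ComplexOrder BoundedContinuousFunction InnerProductSpace

variable {H : Type*} [NormedAddCommGroup H] [InnerProductSpace ℂ H]

/-- Shift invariance gives `⟨A T x, T y⟩ = ⟨A x, y⟩`. -/
theorem inner_invariant {L : (ℕ →ᵇ ℂ) →ₗ[ℂ] ℂ} (hL : IsBanachLimit L) {T A : H →L[ℂ] H}
    (hA : IsAsymptoticLimit L T A) (x y : H) : ⟪T y, A (T x)⟫_ℂ = ⟪y, A x⟫_ℂ := by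
  obtain ⟨f, hf, hLf⟩ := hA x y
  obtain ⟨g, hg, hLg⟩ := hA (T x) (T y)
  rw [hLf, hLg]
  apply hL.shift
  intro n
  rw [hg, hf, pow_succ]
  rfl

theorem inner_invariant_pow {L : (ℕ →ᵇ ℂ) →ₗ[ℂ] ℂ} (hL : IsBanachLimit L) {T A : H →L[ℂ] H}
    (hA : IsAsymptoticLimit L T A) (n : ℕ) (x y : H) :
    ⟪(T ^ n) y, A ((T ^ n) x)⟫_ℂ = ⟪y, A x⟫_ℂ := by
  induction n with
  | zero => simp
  | succ n ih =>
    rw [pow_succ']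
    exact (inner_invariant hL hA ((T ^ n) x) ((T ^ n) y)).trans ih

/-- The form `⟨A x, x⟩` is a nonnegative real number. -/
theorem nonneg {L : (ℕ →ᵇ ℂ) →ₗ[ℂ] ℂ} (hL : IsBanachLimit L) {T A : H →L[ℂ] H}
    (hA : IsAsymptoticLimit L T A) (x : H) : 0 ≤ ⟪x, A x⟫_ℂ := by
  obtain ⟨f, hf, hLf⟩ := hA x x
  rw [hLf]
  apply hL.pos
  intro n
  rw [hf, inner_self_eq_norm_sq_to_K]
  have h := sq_nonneg ‖(T ^ n) x‖
  have h2 : (0 : ℂ) ≤ ((‖(T ^ n) x‖ ^ 2 : ℝ) : ℂ) := by exact_mod_cast h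
  simpa using h2

/-- The asymptotic limit is a positive operator. -/
theorem isPositive [CompleteSpace H] {L : (ℕ →ᵇ ℂ) →ₗ[ℂ] ℂ} (hL : IsBanachLimit L)
    {T A : H →L[ℂ] H} (hA : IsAsymptoticLimit L T A) : A.IsPositive := by
  rw [ContinuousLinearMap.isPositive_iff_complex]
  intro x
  have h := nonneg hL hA x
  have h1 : ⟪A x, x⟫_ℂ = ⟪x, A x⟫_ℂ := by
    rw [← inner_conj_symm, Complex.conj_eq_iff_im.2]
    exact (Complex.nonneg_iff.1 h).2.symm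
  rw [h1]
  refine ⟨?_, (Complex.nonneg_iff.1 h).1⟩
  apply Complex.ext
  · simp
  · exact (Complex.nonneg_iff.1 h).2

/-- If a constant `c` bounds `‖T ^ n x‖ ^ 2` from below then it bounds `⟨A x, x⟩` from below. -/
theorem re_inner_ge {L : (ℕ →ᵇ ℂ) →ₗ[ℂ] ℂ} (hL : IsBanachLimit L) {T A : H →L[ℂ] H}
    (hA : IsAsymptoticLimit L T A) (x : H) (c : ℝ) (hc : ∀ n, c ≤ ‖(T ^ n) x‖ ^ 2) :
    c ≤ (⟪x, A x⟫_ℂ).re := by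
  obtain ⟨f, hf, hLf⟩ := hA x x
  have h1 : 0 ≤ L (f - (c : ℂ) • (1 : ℕ →ᵇ ℂ)) := by
    apply hL.pos
    intro n
    have : (f - (c : ℂ) • (1 : ℕ →ᵇ ℂ)) n = f n - c := by simp
    rw [this, hf, inner_self_eq_norm_sq_to_K]
    have h := hc n
    have h2 : (0 : ℂ) ≤ ((‖(T ^ n) x‖ ^ 2 - c : ℝ) : ℂ) := by
      exact_mod_cast (by linarith : (0 : ℝ) ≤ ‖(T ^ n) x‖ ^ 2 - c)
    simpa using h2
  rw [map_sub, map_smul, hL.one, ← hLf] at h1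
  have := (Complex.nonneg_iff.1 h1).1
  simp at this
  linarith

/-- Cauchy-Schwarz for a positive operator: `‖A u‖ ^ 2 ≤ ‖A‖ * ⟨A u, u⟩`. -/
theorem norm_apply_sq_le [CompleteSpace H] {A : H →L[ℂ] H} (hA : A.IsPositive) (u : H) :
    ‖A u‖ ^ 2 ≤ ‖A‖ * (⟪u, A u⟫_ℂ).re := by
  rcases eq_or_ne ‖A‖ 0 with h0 | h0
  · have : A = 0 := norm_eq_zero.1 h0
    simp [this]
  have hpos : 0 < ‖A‖ := lt_of_le_of_ne (norm_nonneg A) (Ne.symm h0)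
  set s : ℝ := ‖A‖⁻¹ with hs
  have h1 : 0 ≤ (⟪u - (s : ℂ) • A u, A (u - (s : ℂ) • A u)⟫_ℂ).re :=
    hA.re_inner_nonneg_right _
  have h2 : (⟪A u, A u⟫_ℂ).re = ‖A u‖ ^ 2 := inner_self_eq_norm_sq (𝕜 := ℂ) (A u)
  have h3 : ⟪u, A (A u)⟫_ℂ = ⟪A u, A u⟫_ℂ := (hA.inner_left_eq_inner_right u (A u)).symm
  have h4 : (⟪A u, A (A u)⟫_ℂ).re ≤ ‖A‖ * ‖A u‖ ^ 2 := by
    calc (⟪A u, A (A u)⟫_ℂ).re ≤ ‖⟪A u, A (A u)⟫_ℂ‖ := Complex.re_le_norm _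
      _ ≤ ‖A u‖ * ‖A (A u)‖ := norm_inner_le_norm _ _
      _ ≤ ‖A u‖ * (‖A‖ * ‖A u‖) := by gcongr; exact A.le_opNorm _
      _ = ‖A‖ * ‖A u‖ ^ 2 := by ring
  have h5 : (⟪u - (s : ℂ) • A u, A (u - (s : ℂ) • A u)⟫_ℂ).re =
      (⟪u, A u⟫_ℂ).re - 2 * s * ‖A u‖ ^ 2 + s ^ 2 * (⟪A u, A (A u)⟫_ℂ).re := by
    rw [map_sub, map_smul, inner_sub_left, inner_sub_right, inner_sub_right, inner_smul_left,
      inner_smul_right, inner_smul_right, inner_smul_left, h3, Complex.conj_ofReal]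
    simp only [Complex.sub_re, Complex.re_ofReal_mul, h2]
    ring
  rw [h5] at h1
  have h6 : s ^ 2 * (⟪A u, A (A u)⟫_ℂ).re ≤ s * ‖A u‖ ^ 2 := by
    calc s ^ 2 * (⟪A u, A (A u)⟫_ℂ).re ≤ s ^ 2 * (‖A‖ * ‖A u‖ ^ 2) := by gcongr
      _ = s * ‖A u‖ ^ 2 := by rw [hs]; field_simp
  have h7 : s * ‖A u‖ ^ 2 ≤ (⟪u, A u⟫_ℂ).re := by linarith
  calc ‖A u‖ ^ 2 = ‖A‖ * (s * ‖A u‖ ^ 2) := by rw [hs]; field_simp
    _ ≤ ‖A‖ * (⟪u, A u⟫_ℂ).re := by gcongr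

end Q93.Asym
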