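import Pool.Agent.Q93.Asym.Basic

/-!
Compact asymptotic limits: recurrence of orbits.
-/

namespace Q93.Asym

open Topology Filter
open scoped ComplexOrder BoundedContinuousFunction InnerProductSpace

variable {H : Type*} [NormedAddCommGroup H] [InnerProductSpace ℂ H] [CompleteSpace H]

/-- If the asymptotic limit `A` is compact then every orbit returns close to its start as measured
by `A`. -/
theorem recurrence {L : (ℕ →ᵇ ℂ) →ₗ[ℂ] ℂ} (hL : IsBanachLimit L) {T A : H →L[ℂ] H}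
    (hA : IsAsymptoticLimit L T A) (hK : IsCompactOperator A) {M : ℝ} (hM : ∀ n, ‖T ^ n‖ ≤ M)
    (hM0 : 0 < M) (x : H) (N : ℕ) (ε : ℝ) (hε : 0 < ε) :
    ∃ m, N ≤ m ∧ ‖A ((T ^ m) x - x)‖ < ε := by
  have hpos := isPositive hL hA
  set N' := N + 1 with hN'
  have hK' : IsCompact (closure (A '' Metric.closedBall 0 (M * ‖x‖))) :=
    hK.isCompact_closure_image_closedBall _
  have hmem : ∀ k : ℕ, A ((T ^ (k * N')) x) ∈ closure (A '' Metric.closedBall 0 (M * ‖x‖)) := by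
    intro k
    apply subset_closure
    refine ⟨_, ?_, rfl⟩
    simp only [mem_closedBall_zero_iff]
    exact ((T ^ (k * N')).le_opNorm x).trans (by gcongr; exact hM _)
  obtain ⟨a, -, φ, hφ, hlim⟩ := hK'.tendsto_subseq hmem
  have hcau := hlim.cauchySeq
  set δ : ℝ := ε ^ 2 / (2 * (‖A‖ * (2 * M * ‖x‖)) + 1) with hδ
  have hden : 0 < 2 * (‖A‖ * (2 * M * ‖x‖)) + 1 := by positivity
  have hδ0 : 0 < δ := by positivity
  obtain ⟨K, hKK⟩ := Metric.cauchySeq_iff.1 hcau δ hδ0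
  have hd := hKK (K + 1) (by omega) K le_rfl
  have hlt : φ K < φ (K + 1) := hφ (by omega)
  obtain ⟨j, hj⟩ := Nat.exists_eq_add_of_lt hlt
  refine ⟨(j + 1) * N', ?_, ?_⟩
  · calc N ≤ 1 * N' := by omega
      _ ≤ (j + 1) * N' := by gcongr; omega
  set m := (j + 1) * N' with hm
  set w := (T ^ (φ K * N')) ((T ^ m) x - x) with hw
  have hw1 : w = (T ^ (φ (K + 1) * N')) x - (T ^ (φ K * N')) x := by
    have h1 : φ (K + 1) * N' = φ K * N' + m := by rw [hj, hm]; ring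
    rw [hw, map_sub, h1, pow_add]
    rfl
  have hw2 : ‖A w‖ < δ := by
    rw [hw1, map_sub, ← dist_eq_norm]
    exact hd
  have hw3 : ‖w‖ ≤ 2 * M * ‖x‖ := by
    rw [hw1]
    have h1 : ‖(T ^ (φ (K + 1) * N')) x‖ ≤ M * ‖x‖ :=
      ((T ^ _).le_opNorm x).trans (by gcongr; exact hM _)
    have h2 : ‖(T ^ (φ K * N')) x‖ ≤ M * ‖x‖ :=
      ((T ^ _).le_opNorm x).trans (by gcongr; exact hM _)
    have h3 := norm_sub_le ((T ^ (φ (K + 1) * N')) x) ((T ^ (φ K * N')) x)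
    linarith
  have h4 : (⟪(T ^ m) x - x, A ((T ^ m) x - x)⟫_ℂ).re ≤ 2 * M * ‖x‖ * δ := by
    rw [← inner_invariant_pow hL hA (φ K * N') ((T ^ m) x - x) ((T ^ m) x - x), ← hw]
    calc (⟪w, A w⟫_ℂ).re ≤ ‖⟪w, A w⟫_ℂ‖ := Complex.re_le_norm _
      _ ≤ ‖w‖ * ‖A w‖ := norm_inner_le_norm _ _
      _ ≤ (2 * M * ‖x‖) * δ := by gcongr
  have h5 : ‖A ((T ^ m) x - x)‖ ^ 2 ≤ ‖A‖ * (2 * M * ‖x‖ * δ) :=
    (norm_apply_sq_le hpos _).trans (by gcongr)
  have h6 : ‖A‖ * (2 * M * ‖x‖ * δ) < ε ^ 2 := by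
    have : ‖A‖ * (2 * M * ‖x‖ * δ) = (‖A‖ * (2 * M * ‖x‖)) / (2 * (‖A‖ * (2 * M * ‖x‖)) + 1)
        * ε ^ 2 := by
      rw [hδ]; ring
    rw [this]
    have h7 : (‖A‖ * (2 * M * ‖x‖)) / (2 * (‖A‖ * (2 * M * ‖x‖)) + 1) < 1 := by
      rw [div_lt_one hden]
      have : 0 ≤ ‖A‖ * (2 * M * ‖x‖) := by positivity
      linarith
    have h8 : 0 < ε ^ 2 := by positivity
    nlinarith
  exact lt_of_pow_lt_pow_left₀ 2 hε.le (h5.trans_lt h6)

/-- If the asymptotic limit is compact and injective then `T` is bounded below along orbits. -/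
theorem norm_le_of_injective {L : (ℕ →ᵇ ℂ) →ₗ[ℂ] ℂ} (hL : IsBanachLimit L) {T A : H →L[ℂ] H}
    (hA : IsAsymptoticLimit L T A) (hK : IsCompactOperator A) (hinj : Function.Injective A)
    {M : ℝ} (hM : ∀ n, ‖T ^ n‖ ≤ M) (hM0 : 0 < M) (x : H) (n : ℕ) :
    ‖x‖ ≤ M * ‖(T ^ n) x‖ := by
  have hpos := isPositive hL hA
  have hdense : Dense (Set.range A) := by
    have h1 : (A.range)ᗮ = ⊥ := by
      rw [ContinuousLinearMap.orthogonal_range, hpos.isSelfAdjoint.adjoint_eq]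
      exact LinearMap.ker_eq_bot.2 hinj
    have h2 := (Submodule.topologicalClosure_eq_top_iff (K := A.range)).2 h1
    have h3 := (Submodule.dense_iff_topologicalClosure_eq_top (s := A.range)).2 h2
    have h4 : ((A.range : Submodule ℂ H) : Set H) = Set.range A := by ext; simp
    rwa [h4] at h3
  by_cases hx : x = 0
  · simp [hx]
  have hx0 : 0 < ‖x‖ := norm_pos_iff.2 hx
  have key : ∀ δ : ℝ, 0 < δ → ‖x‖ ^ 2 ≤ M * ‖(T ^ n) x‖ * ‖x‖ + δ * (1 + (M + 1) * ‖x‖) := by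
    intro δ hδ
    obtain ⟨_, hy, ⟨y, rfl⟩⟩ := Metric.dense_iff.1 hdense x δ hδ
    rw [Metric.mem_ball, dist_eq_norm] at hy
    obtain ⟨m, hm, hm2⟩ := recurrence hL hA hK hM hM0 x n (δ / (‖y‖ + 1)) (by positivity)
    obtain ⟨j, rfl⟩ := Nat.exists_eq_add_of_le' hm
    set u := (T ^ (j + n)) x - x with hu
    have h1 : ‖⟪A y, u⟫_ℂ‖ ≤ δ := by
      rw [hpos.inner_left_eq_inner_right]
      calc ‖⟪y, A u⟫_ℂ‖ ≤ ‖y‖ * ‖A u‖ := norm_inner_le_norm _ _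
        _ ≤ (‖y‖ + 1) * (δ / (‖y‖ + 1)) := by gcongr; linarith
        _ = δ := by field_simp
    have h2 : ‖u‖ ≤ (M + 1) * ‖x‖ := by
      have h3 : ‖(T ^ (j + n)) x‖ ≤ M * ‖x‖ :=
        ((T ^ _).le_opNorm x).trans (by gcongr; exact hM _)
      have h4 := norm_sub_le ((T ^ (j + n)) x) x
      rw [← hu] at h4
      linarith
    have h3 : ‖⟪x, u⟫_ℂ‖ ≤ δ * (1 + (M + 1) * ‖x‖) := by
      have h4 : ⟪x, u⟫_ℂ = ⟪A y, u⟫_ℂ - ⟪A y - x, u⟫_ℂ := by
        rw [← inner_sub_left]; congr 1; abel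
      rw [h4]
      calc ‖⟪A y, u⟫_ℂ - ⟪A y - x, u⟫_ℂ‖ ≤ ‖⟪A y, u⟫_ℂ‖ + ‖⟪A y - x, u⟫_ℂ‖ := norm_sub_le _ _
        _ ≤ δ + ‖A y - x‖ * ‖u‖ := add_le_add h1 (norm_inner_le_norm _ _)
        _ ≤ δ + δ * ((M + 1) * ‖x‖) := by gcongr
        _ = _ := by ring
    have h5 : ‖(T ^ (j + n)) x‖ ≤ M * ‖(T ^ n) x‖ := by
      have e : (T ^ (j + n)) x = (T ^ j) ((T ^ n) x) := by rw [pow_add]; rfl
      rw [e]
      exact ((T ^ j).le_opNorm _).trans (by gcongr; exact hM _)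
    have h6 : (‖x‖ ^ 2 : ℝ) = (⟪x, (T ^ (j + n)) x⟫_ℂ).re - (⟪x, u⟫_ℂ).re := by
      rw [← Complex.sub_re, ← inner_sub_right, hu, sub_sub_cancel]
      exact (inner_self_eq_norm_sq (𝕜 := ℂ) x).symm
    rw [h6]
    have h7 : (⟪x, (T ^ (j + n)) x⟫_ℂ).re ≤ M * ‖(T ^ n) x‖ * ‖x‖ := by
      calc (⟪x, (T ^ (j + n)) x⟫_ℂ).re ≤ ‖⟪x, (T ^ (j + n)) x⟫_ℂ‖ := Complex.re_le_norm _
        _ ≤ ‖x‖ * ‖(T ^ (j + n)) x‖ := norm_inner_le_norm _ _
        _ ≤ ‖x‖ * (M * ‖(T ^ n) x‖) := by gcongr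
        _ = _ := by ring
    have h8 : -(⟪x, u⟫_ℂ).re ≤ ‖⟪x, u⟫_ℂ‖ :=
      (neg_le_abs _).trans (Complex.abs_re_le_norm _)
    linarith
  have h9 : ‖x‖ ^ 2 ≤ M * ‖(T ^ n) x‖ * ‖x‖ := by
    apply le_of_forall_pos_le_add
    intro ε hε
    have hc : 0 < 1 + (M + 1) * ‖x‖ := by positivity
    have := key (ε / (1 + (M + 1) * ‖x‖)) (by positivity)
    rwa [div_mul_cancel₀ _ hc.ne'] at this
  have h10 : ‖x‖ * ‖x‖ ≤ (M * ‖(T ^ n) x‖) * ‖x‖ := by rw [← sq]; exact h9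
  exact le_of_mul_le_mul_right h10 hx0

/-- A compact injective asymptotic limit forces the space to be finite-dimensional. -/
theorem finiteDimensional_of_injective {L : (ℕ →ᵇ ℂ) →ₗ[ℂ] ℂ} (hL : IsBanachLimit L)
    {T A : H →L[ℂ] H} (hT : PowerBounded T)
    (hA : IsAsymptoticLimit L T A) (hK : IsCompactOperator A) (hinj : Function.Injective A) :
    FiniteDimensional ℂ H := by
  obtain ⟨M', hM'⟩ := hT
  set M := max M' 1 with hMdef
  have hM : ∀ n, ‖T ^ n‖ ≤ M := fun n => (hM' n).trans (le_max_left _ _)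
  have hM0 : 0 < M := lt_of_lt_of_le one_pos (le_max_right _ _)
  have hlow : ∀ x : H, ‖x‖ ≤ M ^ 2 * ‖A x‖ := by
    intro x
    have h1 : (‖x‖ / M) ^ 2 ≤ (⟪x, A x⟫_ℂ).re := by
      apply re_inner_ge hL hA
      intro n
      have h2 := norm_le_of_injective hL hA hK hinj hM hM0 x n
      have h3 : ‖x‖ / M ≤ ‖(T ^ n) x‖ := by
        rw [div_le_iff₀ hM0]; linarith
      gcongr
    have h4 : (⟪x, A x⟫_ℂ).re ≤ ‖x‖ * ‖A x‖ :=
      (Complex.re_le_norm _).trans (norm_inner_le_norm _ _)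
    by_cases hx : x = 0
    · simp [hx]
    have hx0 : 0 < ‖x‖ := norm_pos_iff.2 hx
    have h5 : ‖x‖ * ‖x‖ ≤ (M ^ 2 * ‖A x‖) * ‖x‖ := by
      have h6 : (‖x‖ / M) ^ 2 = ‖x‖ * ‖x‖ / M ^ 2 := by ring
      rw [h6] at h1
      have h7 := h1.trans h4
      rw [div_le_iff₀ (by positivity)] at h7
      linarith
    exact le_of_mul_le_mul_right h5 hx0
  have hanti : AntilipschitzWith (Real.toNNReal (M ^ 2)) A := by
    apply AddMonoidHomClass.antilipschitz_of_bound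
    intro x
    rw [Real.coe_toNNReal _ (by positivity)]
    exact hlow x
  have hemb := hanti.isClosedEmbedding A.uniformContinuous
  have hcomp : IsCompact (A ⁻¹' closure (A '' Metric.closedBall 0 1)) :=
    hemb.isCompact_preimage (hK.isCompact_closure_image_closedBall _)
  have hball : IsCompact (Metric.closedBall (0 : H) 1) := by
    refine hcomp.of_isClosed_subset Metric.isClosed_closedBall ?_
    intro x hx
    exact subset_closure ⟨x, hx, rfl⟩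
  exact FiniteDimensional.of_isCompact_closedBall ℂ one_pos hball

end Q93.Asym
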