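import Mathlib

/-!
Banach limits, power bounded operators and `L`-asymptotic limits.
-/

namespace Q93.Asym

open scoped ComplexOrder BoundedContinuousFunction InnerProductSpace

/-- A Banach limit: a positive, shift-invariant linear functional on the space of bounded complex
sequences which takes the value `1` at the constant sequence `1`. Here `ℕ →ᵇ ℂ` is the space of
bounded functions `ℕ → ℂ`, and `0 ≤ z` means that `z` is a nonnegative real number. -/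
structure IsBanachLimit (L : (ℕ →ᵇ ℂ) →ₗ[ℂ] ℂ) : Prop where
  pos : ∀ f : ℕ →ᵇ ℂ, (∀ n, 0 ≤ f n) → 0 ≤ L f
  shift : ∀ f g : ℕ →ᵇ ℂ, (∀ n, g n = f (n + 1)) → L g = L f
  one : L 1 = 1

/-- `T` is power bounded: the norms `‖T ^ n‖` are bounded. -/
def PowerBounded {H : Type*} [NormedAddCommGroup H] [InnerProductSpace ℂ H] (T : H →L[ℂ] H) :
    Prop :=
  ∃ M : ℝ, ∀ n : ℕ, ‖T ^ n‖ ≤ M

/-- `A` is the `L`-asymptotic limit of `T`: for all `x`, `y` the sequence `⟨T ^ n x, T ^ n y⟩` is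
bounded and its Banach limit is `⟨A x, y⟩`. (Mathlib's inner product `⟪·, ·⟫_ℂ` is conjugate linear
in its first argument, so the `⟨u, v⟩` of the problem is `⟪v, u⟫_ℂ`.) -/
def IsAsymptoticLimit {H : Type*} [NormedAddCommGroup H] [InnerProductSpace ℂ H]
    (L : (ℕ →ᵇ ℂ) →ₗ[ℂ] ℂ) (T A : H →L[ℂ] H) : Prop :=
  ∀ x y : H, ∃ f : ℕ →ᵇ ℂ, (∀ n, f n = ⟪(T ^ n) y, (T ^ n) x⟫_ℂ) ∧ ⟪y, A x⟫_ℂ = L f

end Q93.Asym
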