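import Mathlib

/-!
The essential spectrum.
-/

namespace Q93.Asym

/-- The essential spectrum of `A`: the complex numbers `μ` such that `A - μ` has no inverse modulo
the compact operators, that is, such that its class in the Calkin algebra is not invertible. -/
def essSpectrum {H : Type*} [NormedAddCommGroup H] [InnerProductSpace ℂ H] (A : H →L[ℂ] H) :
    Set ℂ :=
  {μ | ¬ ∃ S : H →L[ℂ] H,
    IsCompactOperator (S * (A - μ • (1 : H →L[ℂ] H)) - 1 : H →L[ℂ] H) ∧
    IsCompactOperator ((A - μ • (1 : H →L[ℂ] H)) * S - 1 : H →L[ℂ] H)}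

end Q93.Asym
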