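import Pool.Agent.Q93.Asym.EssMain

/-!
If the essential spectrum of an `L`-asymptotic limit is `{t}` with `t > 0` then `t = 1`.
-/

namespace Q93.Asym

open Topology Filter
open scoped ComplexOrder BoundedContinuousFunction InnerProductSpace

variable {H : Type*} [NormedAddCommGroup H] [InnerProductSpace ℂ H] [CompleteSpace H]

theorem exists_orthonormal_seq (hinf : ¬ FiniteDimensional ℂ H) :
    ∃ x : ℕ → H, Orthonormal ℂ x := by
  obtain ⟨w, b, hb⟩ := exists_hilbertBasis ℂ H
  by_cases hw : w.Finite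
  · exfalso
    apply hinf
    have h1 : Set.range b = w := by rw [hb]; exact Subtype.range_coe
    have h2 := b.dense_span
    rw [h1] at h2
    have h3 : FiniteDimensional ℂ (Submodule.span ℂ w) := FiniteDimensional.span_of_finite ℂ hw
    have h4 : (Submodule.span ℂ w).topologicalClosure = Submodule.span ℂ w :=
      (Submodule.closed_of_finiteDimensional _).submodule_topologicalClosure_eq
    rw [h4] at h2
    rw [h2] at h3
    exact Module.Finite.equiv (Submodule.topEquiv (R := ℂ) (M := H))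
  · have : Infinite w := Set.infinite_coe_iff.2 hw
    exact ⟨b ∘ Infinite.natEmbedding w, b.orthonormal.comp _ (Infinite.natEmbedding w).injective⟩

omit [CompleteSpace H] in
theorem not_finiteDimensional {A : H →L[ℂ] H} {μ : ℂ} (h : μ ∈ essSpectrum A) :
    ¬ FiniteDimensional ℂ H := by
  intro hfin
  have : ProperSpace H := FiniteDimensional.proper ℂ H
  apply h
  refine ⟨0, ?_, ?_⟩
  · exact (isCompactOperator_iff_exists_mem_nhds_image_subset_compact _).2
      ⟨Metric.closedBall 0 1, Metric.closedBall_mem_nhds 0 one_pos, _,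
        (isCompact_closedBall (0 : H) 1).image (ContinuousLinearMap.continuous _), subset_rfl⟩
  · exact (isCompactOperator_iff_exists_mem_nhds_image_subset_compact _).2
      ⟨Metric.closedBall 0 1, Metric.closedBall_mem_nhds 0 one_pos, _,
        (isCompact_closedBall (0 : H) 1).image (ContinuousLinearMap.continuous _), subset_rfl⟩

theorem eq_one_of_essSpectrum {L : (ℕ →ᵇ ℂ) →ₗ[ℂ] ℂ} (hL : IsBanachLimit L)
    {T A : H →L[ℂ] H} (hT : PowerBounded T) (hA : IsAsymptoticLimit L T A) {t : ℝ} (ht : 0 < t)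
    (hess : essSpectrum A = {(t : ℂ)}) : t = 1 := by
  have hpos := isPositive hL hA
  have hinf : ¬ FiniteDimensional ℂ H := not_finiteDimensional (A := A) (μ := t) (by simp [hess])
  obtain ⟨x, hx⟩ := exists_orthonormal_seq hinf
  obtain ⟨M', hM'⟩ := hT
  set M := max M' 1 with hMdef
  have hM : ∀ n, ‖T ^ n‖ ≤ M := fun n => (hM' n).trans (le_max_left _ _)
  have hM0 : 0 < M := lt_of_lt_of_le one_pos (le_max_right _ _)
  set B : H →L[ℂ] H := A - (t : ℂ) • (1 : H →L[ℂ] H) with hB
  have hBapp : ∀ u, B u = A u - (t : ℂ) • u := fun u => by simp [hB]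
  have hBsym : ∀ u v, ⟪B u, v⟫_ℂ = ⟪u, B v⟫_ℂ := by
    intro u v
    rw [hBapp, hBapp, inner_sub_left, inner_sub_right, hpos.inner_left_eq_inner_right,
      inner_smul_left, inner_smul_right, Complex.conj_ofReal]
  have hsmall : ∀ c : ℝ, 0 < c → Small B c := by
    apply small_of_left_inverse hBsym
    intro l hl
    have hnot : ((t + l : ℝ) : ℂ) ∉ essSpectrum A := by
      rw [hess, Set.mem_singleton_iff]
      intro h
      have : t + l = t := by exact_mod_cast h
      exact hl (by linarith)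
    rw [essSpectrum, Set.mem_ofPred_eq, not_not] at hnot
    obtain ⟨S, hS, -⟩ := hnot
    refine ⟨S, ?_⟩
    have : B - (l : ℂ) • (1 : H →L[ℂ] H) = A - ((t + l : ℝ) : ℂ) • (1 : H →L[ℂ] H) := by
      rw [hB, Complex.ofReal_add, add_smul, sub_sub]
    rw [this]
    exact hS
  -- the quadratic form
  set q : ℕ → ℂ := fun i => ⟪x i, A (x i)⟫_ℂ with hq
  have hreal : ∀ u : H, ((⟪u, B u⟫_ℂ).re : ℂ) = ⟪u, B u⟫_ℂ := by
    intro u
    rw [← Complex.conj_eq_iff_re, inner_conj_symm]
    exact hBsym u u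
  choose f hf hLf using fun i : ℕ => hA (x i) (x i)
  have hkey : ∀ η : ℝ, 0 < η → ∃ D : ℝ, ∀ N : ℕ,
      |1 - t| * (N * t - (N * η + D)) ≤ N * η + D := by
    intro η hη
    obtain ⟨D, hD⟩ := sum_form_le hsmall hM0 hM η hη
    refine ⟨D, fun N => ?_⟩
    set Bd : ℝ := N * η + D with hBd
    set g : ℕ →ᵇ ℂ := ∑ i ∈ Finset.range N, (q i • (1 : ℕ →ᵇ ℂ) - (t : ℂ) • f i) with hg
    have hgn : ∀ n, g n = ∑ i ∈ Finset.range N, ⟪(T ^ n) (x i), B ((T ^ n) (x i))⟫_ℂ := by
      intro n
      rw [hg, BoundedContinuousFunction.coe_sum, Finset.sum_apply]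
      apply Finset.sum_congr rfl
      intro i _
      have h1 : (q i • (1 : ℕ →ᵇ ℂ) - (t : ℂ) • f i) n = q i - (t : ℂ) * f i n := by simp
      rw [h1, hf, hBapp, inner_sub_right, inner_smul_right, inner_invariant_pow hL hA]
    have hgb : ∀ n, ‖g n‖ ≤ Bd := by
      intro n
      rw [hgn]
      exact (norm_sum_le _ _).trans (hD N x hx n)
    have hgreal : ∀ n, (((g n).re : ℝ) : ℂ) = g n := by
      intro n
      rw [hgn, Complex.re_sum, Complex.ofReal_sum]
      exact Finset.sum_congr rfl fun i _ => hreal _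
    have hLg : L g = (1 - (t : ℂ)) * ∑ i ∈ Finset.range N, q i := by
      rw [hg, map_sum, Finset.mul_sum]
      apply Finset.sum_congr rfl
      intro i _
      rw [map_sub, map_smul, map_smul, hL.one, ← hLf i]
      simp only [smul_eq_mul, hq]
      ring
    have hup : (L g).re ≤ Bd := by
      have h1 : 0 ≤ L ((Bd : ℂ) • (1 : ℕ →ᵇ ℂ) - g) := by
        apply hL.pos
        intro n
        have h2 : ((Bd : ℂ) • (1 : ℕ →ᵇ ℂ) - g) n = ((Bd - (g n).re : ℝ) : ℂ) := by
          rw [Complex.ofReal_sub Bd (g n).re, hgreal]; simp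
        rw [h2]
        have h3 := (Complex.re_le_norm (g n)).trans (hgb n)
        exact_mod_cast (by linarith : (0 : ℝ) ≤ Bd - (g n).re)
      rw [map_sub, map_smul, hL.one] at h1
      have h4 := (Complex.nonneg_iff.1 h1).1
      simp at h4
      linarith
    have hlo : -Bd ≤ (L g).re := by
      have h1 : 0 ≤ L ((Bd : ℂ) • (1 : ℕ →ᵇ ℂ) + g) := by
        apply hL.pos
        intro n
        have h2 : ((Bd : ℂ) • (1 : ℕ →ᵇ ℂ) + g) n = ((Bd + (g n).re : ℝ) : ℂ) := by
          rw [Complex.ofReal_add Bd (g n).re, hgreal]; simp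
        rw [h2]
        have h3 := (Complex.abs_re_le_norm (g n)).trans (hgb n)
        have h5 := neg_abs_le (g n).re
        exact_mod_cast (by linarith : (0 : ℝ) ≤ Bd + (g n).re)
      rw [map_add, map_smul, hL.one] at h1
      have h4 := (Complex.nonneg_iff.1 h1).1
      simp at h4
      linarith
    set Q : ℝ := ∑ i ∈ Finset.range N, (q i).re with hQ
    have hLgre : (L g).re = (1 - t) * Q := by
      have h1 : (1 - (t : ℂ)) = ((1 - t : ℝ) : ℂ) := by simp
      rw [hLg, h1, Complex.re_ofReal_mul, Complex.re_sum]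
    have hQlow : N * t - Bd ≤ Q := by
      have h1 := hD N x hx 0
      have h2 : ∀ i ∈ Finset.range N, t - ‖⟪(T ^ 0) (x i), B ((T ^ 0) (x i))⟫_ℂ‖ ≤ (q i).re := by
        intro i _
        have h3 : (q i).re = t + (⟪x i, B (x i)⟫_ℂ).re := by
          rw [hBapp, inner_sub_right, inner_smul_right, inner_self_eq_norm_sq_to_K, hx.1 i]
          simp [hq]
        rw [h3, pow_zero]
        have h4 := (neg_abs_le (⟪x i, B (x i)⟫_ℂ).re)
        have h5 := Complex.abs_re_le_norm (⟪x i, B (x i)⟫_ℂ)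
        change t - ‖⟪x i, B (x i)⟫_ℂ‖ ≤ _
        linarith
      have h6 := Finset.sum_le_sum h2
      rw [Finset.sum_sub_distrib] at h6
      simp only [Finset.sum_const, Finset.card_range, nsmul_eq_mul] at h6
      linarith
    have habs : |1 - t| * Q ≤ Bd := by
      rw [hLgre] at hup hlo
      rcases abs_cases (1 - t) with ⟨h, -⟩ | ⟨h, -⟩
      · rw [h]; exact hup
      · rw [h]; linarith
    calc |1 - t| * (N * t - Bd) ≤ |1 - t| * Q := by gcongr
      _ ≤ Bd := habs
  -- let `N → ∞`, then `η → 0`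
  have hkey2 : ∀ η : ℝ, 0 < η → |1 - t| * (t - η) ≤ η := by
    intro η hη
    obtain ⟨D, hD⟩ := hkey η hη
    by_contra hcon
    push Not at hcon
    set d := |1 - t| * (t - η) - η with hd
    have hdpos : 0 < d := by linarith
    obtain ⟨N, hN⟩ := exists_nat_gt ((D + |1 - t| * D) / d)
    have h1 := hD N
    rw [div_lt_iff₀ hdpos] at hN
    have h2 : |1 - t| * (N * t - (N * η + D)) - (N * η + D) = N * d - (D + |1 - t| * D) := by
      rw [hd]; ring
    linarith
  have hfin : |1 - t| * t ≤ 0 := by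
    apply le_of_forall_pos_le_add
    intro ε hε
    have h1 := hkey2 (ε / (1 + |1 - t|)) (by positivity)
    have h2 : |1 - t| * t ≤ (1 + |1 - t|) * (ε / (1 + |1 - t|)) := by linarith
    rw [mul_div_cancel₀ _ (by positivity : (1 + |1 - t|) ≠ 0)] at h2
    linarith
  have h3 : |1 - t| ≤ 0 := by
    by_contra hcon
    push Not at hcon
    have := mul_pos hcon ht
    linarith
  have h4 := abs_eq_zero.1 (le_antisymm h3 (abs_nonneg _))
  linarith

end Q93.Asym
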