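import Pool.Agent.Q93.Asym.Basic
import Pool.Agent.Q93.Asym.Ess

/-!
Operators that are small on the orthogonal complement of a finite-dimensional subspace.
-/

namespace Q93.Asym

open Topology Filter
open scoped ComplexOrder BoundedContinuousFunction InnerProductSpace

variable {H : Type*} [NormedAddCommGroup H] [InnerProductSpace ℂ H] [CompleteSpace H]

/-- `C` has norm at most `c` off a finite-dimensional subspace. -/
def Small (C : H →L[ℂ] H) (c : ℝ) : Prop :=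
  ∃ F : Submodule ℂ H, FiniteDimensional ℂ F ∧ ∀ u ∈ Fᗮ, ‖C u‖ ≤ c * ‖u‖

omit [CompleteSpace H] in
theorem Small.mono {C : H →L[ℂ] H} {c d : ℝ} (h : Small C c) (hcd : c ≤ d) : Small C d := by
  obtain ⟨F, hF, hu⟩ := h
  exact ⟨F, hF, fun u hu' => (hu u hu').trans (by gcongr)⟩

/-- Compact operators are small off finite-dimensional subspaces. -/
theorem small_of_compact {K : H →L[ℂ] H} (hK : IsCompactOperator K) {c : ℝ} (hc : 0 < c) :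
    Small K c := by
  have hcomp : IsCompact (closure (K '' Metric.closedBall 0 1)) :=
    hK.isCompact_closure_image_closedBall _
  obtain ⟨t, -, htf, ht⟩ := Metric.totallyBounded_iff.1 hcomp.totallyBounded c hc |>.imp
    fun t ht => (⟨trivial, ht.1, ht.2⟩ : True ∧ _ ∧ _)
  refine ⟨Submodule.span ℂ ((ContinuousLinearMap.adjoint K) '' t),
    FiniteDimensional.span_of_finite ℂ (htf.image _), ?_⟩
  intro u hu
  have hunit : ∀ v ∈ (Submodule.span ℂ ((ContinuousLinearMap.adjoint K) '' t))ᗮ, ‖v‖ ≤ 1 →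
      ‖K v‖ ≤ c := by
    intro v hv hv1
    have hmem : K v ∈ closure (K '' Metric.closedBall 0 1) :=
      subset_closure ⟨v, by simpa using hv1, rfl⟩
    obtain ⟨k, hk, hkv⟩ := Set.mem_iUnion₂.1 (ht hmem)
    rw [Metric.mem_ball, dist_eq_norm] at hkv
    have h1 : ⟪k, K v⟫_ℂ = 0 := by
      rw [← ContinuousLinearMap.adjoint_inner_left]
      exact (Submodule.mem_orthogonal _ v).1 hv _ (Submodule.subset_span ⟨k, hk, rfl⟩)
    have h2 : ‖K v‖ ^ 2 = (⟪K v - k, K v⟫_ℂ).re := by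
      rw [inner_sub_left, h1, sub_zero]
      exact (inner_self_eq_norm_sq (𝕜 := ℂ) (K v)).symm
    have h3 : ‖K v‖ ^ 2 ≤ c * ‖K v‖ := by
      rw [h2]
      calc (⟪K v - k, K v⟫_ℂ).re ≤ ‖⟪K v - k, K v⟫_ℂ‖ := Complex.re_le_norm _
        _ ≤ ‖K v - k‖ * ‖K v‖ := norm_inner_le_norm _ _
        _ ≤ c * ‖K v‖ := by gcongr
    by_cases h0 : ‖K v‖ = 0
    · rw [h0]; exact hc.le
    · have h4 : 0 < ‖K v‖ := lt_of_le_of_ne (norm_nonneg _) (Ne.symm h0)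
      rw [sq] at h3
      exact le_of_mul_le_mul_right h3 h4
  by_cases hu0 : u = 0
  · simp [hu0]
  have hu1 : 0 < ‖u‖ := norm_pos_iff.2 hu0
  have h5 := hunit (((‖u‖⁻¹ : ℝ) : ℂ) • u) (Submodule.smul_mem _ _ hu) (by
    rw [norm_smul, Complex.norm_real, Real.norm_of_nonneg (by positivity)]
    rw [inv_mul_cancel₀ hu1.ne'])
  rw [map_smul, norm_smul, Complex.norm_real, Real.norm_of_nonneg (by positivity)] at h5
  rw [inv_mul_le_iff₀ hu1] at h5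
  linarith

/-- If `B` is self-adjoint and `B - l` is left invertible modulo the compact operators for all real
`l ≠ 0` then `B` is small off finite-dimensional subspaces. -/
theorem small_of_left_inverse {B : H →L[ℂ] H} (hB : ∀ x y, ⟪B x, y⟫_ℂ = ⟪x, B y⟫_ℂ)
    (hinv : ∀ l : ℝ, l ≠ 0 → ∃ S : H →L[ℂ] H,
      IsCompactOperator (S * (B - (l : ℂ) • (1 : H →L[ℂ] H)) - 1 : H →L[ℂ] H)) :
    ∀ c : ℝ, 0 < c → Small B c := by
  set X : Set ℝ := {c | 0 ≤ c ∧ Small B c} with hX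
  have hXne : X.Nonempty := ⟨‖B‖, norm_nonneg _, ⊥, inferInstance, fun u _ => B.le_opNorm u⟩
  have hXbdd : BddBelow X := ⟨0, fun c hc => hc.1⟩
  set μ := sInf X with hμ
  have hμ0 : 0 ≤ μ := le_csInf hXne fun c hc => hc.1
  have habove : ∀ c, μ < c → Small B c := by
    intro c hc
    obtain ⟨d, hd, hdc⟩ := exists_lt_of_csInf_lt hXne hc
    exact hd.2.mono hdc.le
  have hbelow : ∀ c, 0 ≤ c → c < μ → ¬ Small B c := by
    intro c hc0 hc h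
    exact absurd (csInf_le hXbdd (show c ∈ X from ⟨hc0, h⟩)) (not_le.2 hc)
  by_cases hμz : μ = 0
  · intro c hc
    exact habove c (by rw [hμz]; exact hc)
  exfalso
  have hμpos : 0 < μ := lt_of_le_of_ne hμ0 (Ne.symm hμz)
  obtain ⟨S₁, hS₁⟩ := hinv μ hμpos.ne'
  obtain ⟨S₂, hS₂⟩ := hinv (-μ) (neg_ne_zero.2 hμpos.ne')
  set K₁ : H →L[ℂ] H := S₁ * (B - (μ : ℂ) • (1 : H →L[ℂ] H)) - 1 with hK₁
  set K₂ : H →L[ℂ] H := S₂ * (B - ((-μ : ℝ) : ℂ) • (1 : H →L[ℂ] H)) - 1 with hK₂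
  set K' : H →L[ℂ] H := K₂ + S₂ * (K₁ * (B + (μ : ℂ) • (1 : H →L[ℂ] H))) with hK'
  have hK'c : IsCompactOperator K' := by
    have h1 : IsCompactOperator (K₁ * (B + (μ : ℂ) • (1 : H →L[ℂ] H)) : H →L[ℂ] H) :=
      hS₁.comp_clm _
    have h2 : IsCompactOperator (S₂ * (K₁ * (B + (μ : ℂ) • (1 : H →L[ℂ] H))) : H →L[ℂ] H) :=
      h1.clm_comp S₂
    exact hS₂.add h2
  have hid : ∀ u : H, u + K' u = (S₂ * S₁) (B (B u) - ((μ ^ 2 : ℝ) : ℂ) • u) := by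
    intro u
    have e1 : ∀ v, v + K₁ v = S₁ (B v - (μ : ℂ) • v) := by
      intro v; simp [hK₁]
    have e2 : ∀ v, v + K₂ v = S₂ (B v + (μ : ℂ) • v) := by
      intro v; simp [hK₂]
    have e3 : K' u = K₂ u + S₂ (K₁ (B u + (μ : ℂ) • u)) := by simp [hK']
    rw [e3, ← add_assoc, e2, ← map_add, e1]
    change S₂ (S₁ _) = S₂ (S₁ _)
    congr 2
    simp only [map_add, map_smul, Complex.ofReal_mul, smul_add, smul_smul, sq]
    abel
  obtain ⟨F₁, hF₁, hKs⟩ := small_of_compact hK'c (c := 1 / 2) (by norm_num)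
  set s := ‖S₂ * S₁‖ with hs
  have hlow : ∀ u ∈ F₁ᗮ, ‖u‖ ≤ 2 * s * ‖B (B u) - ((μ ^ 2 : ℝ) : ℂ) • u‖ := by
    intro u hu
    have h1 := hKs u hu
    have h2 : ‖u + K' u‖ ≤ s * ‖B (B u) - ((μ ^ 2 : ℝ) : ℂ) • u‖ := by
      rw [hid]; exact (S₂ * S₁).le_opNorm _
    have h3 : ‖u‖ ≤ ‖u + K' u‖ + ‖K' u‖ := by
      have := norm_sub_le (u + K' u) (K' u)
      rwa [add_sub_cancel_right] at this
    linarith
  have hmain : ∀ ε : ℝ, 0 < ε → ε < μ →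
      1 ≤ 4 * s ^ 2 * ((μ + ε) ^ 4 - 2 * μ ^ 2 * (μ - ε) ^ 2 + μ ^ 4) := by
    intro ε hε hεμ
    obtain ⟨F₀, hF₀, hBs⟩ := habove (μ + ε) (by linarith)
    have hnot := hbelow (μ - ε) (by linarith) (by linarith)
    set G : Submodule ℂ H := F₀ ⊔ F₀.map (B : H →ₗ[ℂ] H) ⊔ F₁ with hG
    have hGfin : FiniteDimensional ℂ G := by
      rw [hG]; infer_instance
    have hex : ∃ u ∈ Gᗮ, (μ - ε) * ‖u‖ < ‖B u‖ := by
      by_contra hcon
      push Not at hcon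
      exact hnot ⟨G, hGfin, hcon⟩
    obtain ⟨u, hu, huB⟩ := hex
    have hu0 : u ∈ F₀ᗮ := Submodule.orthogonal_le (le_sup_left.trans le_sup_left) hu
    have hu1 : u ∈ F₁ᗮ := Submodule.orthogonal_le le_sup_right hu
    have hu2 : u ∈ (F₀.map (B : H →ₗ[ℂ] H))ᗮ :=
      Submodule.orthogonal_le (le_sup_right.trans le_sup_left) hu
    have hBu : B u ∈ F₀ᗮ := by
      rw [Submodule.mem_orthogonal]
      intro f hf
      rw [← hB]
      exact (Submodule.mem_orthogonal _ u).1 hu2 _ ⟨f, hf, rfl⟩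
    have hupos : 0 < ‖u‖ := by
      rcases (norm_nonneg u).eq_or_lt with h | h
      · rw [← h, mul_zero] at huB
        have : u = 0 := norm_eq_zero.1 h.symm
        rw [this, map_zero, norm_zero] at huB
        exact absurd huB (lt_irrefl _)
      · exact h
    have hb1 : ‖B u‖ ≤ (μ + ε) * ‖u‖ := hBs u hu0
    have hb2 : ‖B (B u)‖ ≤ (μ + ε) * ‖B u‖ := hBs _ hBu
    have hb3 : ‖B (B u)‖ ≤ (μ + ε) ^ 2 * ‖u‖ := by
      calc ‖B (B u)‖ ≤ (μ + ε) * ‖B u‖ := hb2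
        _ ≤ (μ + ε) * ((μ + ε) * ‖u‖) := by gcongr
        _ = _ := by ring
    have hnorm : ‖B (B u) - ((μ ^ 2 : ℝ) : ℂ) • u‖ ^ 2 =
        ‖B (B u)‖ ^ 2 - 2 * μ ^ 2 * ‖B u‖ ^ 2 + μ ^ 4 * ‖u‖ ^ 2 := by
      rw [@norm_sub_sq ℂ, inner_smul_right, hB (B u) u, norm_smul, Complex.norm_real,
        Real.norm_of_nonneg (by positivity)]
      have h1 : (⟪B u, B u⟫_ℂ) = ((‖B u‖ ^ 2 : ℝ) : ℂ) := by
        rw [inner_self_eq_norm_sq_to_K]; simp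
      rw [h1]
      simp only [RCLike.re_to_complex, Complex.re_ofReal_mul, Complex.ofReal_re]
      ring
    have hb4 : ‖B (B u) - ((μ ^ 2 : ℝ) : ℂ) • u‖ ^ 2 ≤
        ((μ + ε) ^ 4 - 2 * μ ^ 2 * (μ - ε) ^ 2 + μ ^ 4) * ‖u‖ ^ 2 := by
      rw [hnorm]
      have h1 : ‖B (B u)‖ ^ 2 ≤ ((μ + ε) ^ 2 * ‖u‖) ^ 2 := by gcongr
      have h2 : ((μ - ε) * ‖u‖) ^ 2 ≤ ‖B u‖ ^ 2 := by
        have : 0 ≤ (μ - ε) * ‖u‖ := mul_nonneg (by linarith) hupos.le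
        gcongr
      have h3 : 2 * μ ^ 2 * ((μ - ε) * ‖u‖) ^ 2 ≤ 2 * μ ^ 2 * ‖B u‖ ^ 2 := by gcongr
      nlinarith
    have hb5 := hlow u hu1
    have hb6 : ‖u‖ ^ 2 ≤ 4 * s ^ 2 * (((μ + ε) ^ 4 - 2 * μ ^ 2 * (μ - ε) ^ 2 + μ ^ 4) * ‖u‖ ^ 2) := by
      calc ‖u‖ ^ 2 ≤ (2 * s * ‖B (B u) - ((μ ^ 2 : ℝ) : ℂ) • u‖) ^ 2 := by gcongr
        _ = 4 * s ^ 2 * ‖B (B u) - ((μ ^ 2 : ℝ) : ℂ) • u‖ ^ 2 := by ring
        _ ≤ _ := by gcongr
    have hb7 : 0 < ‖u‖ ^ 2 := by positivity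
    have hb8 : 1 * ‖u‖ ^ 2 ≤
        (4 * s ^ 2 * ((μ + ε) ^ 4 - 2 * μ ^ 2 * (μ - ε) ^ 2 + μ ^ 4)) * ‖u‖ ^ 2 := by
      linarith
    exact le_of_mul_le_mul_right hb8 hb7
  have hcont : Continuous fun ε : ℝ =>
      4 * s ^ 2 * ((μ + ε) ^ 4 - 2 * μ ^ 2 * (μ - ε) ^ 2 + μ ^ 4) := by fun_prop
  have hlim := (hcont.tendsto 0).mono_left (nhdsWithin_le_nhds (s := Set.Ioi (0 : ℝ)))
  have hz : 4 * s ^ 2 * ((μ + 0) ^ 4 - 2 * μ ^ 2 * (μ - 0) ^ 2 + μ ^ 4) = 0 := by ring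
  rw [hz] at hlim
  have hge : (1 : ℝ) ≤ 0 := by
    refine ge_of_tendsto hlim ?_
    filter_upwards [Ioo_mem_nhdsGT hμpos] with ε hε
    exact hmain ε hε.1 hε.2
  linarith

end Q93.Asym
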