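import Pool.Agent.Q93.Asym.EssLem

/-!
If the essential spectrum of an `L`-asymptotic limit is `{t}` with `t > 0` then `t = 1`.
-/

namespace Q93.Asym

open Topology Filter
open scoped ComplexOrder BoundedContinuousFunction InnerProductSpace

variable {H : Type*} [NormedAddCommGroup H] [InnerProductSpace ℂ H] [CompleteSpace H]

/-- If every `c > 0` is admissible for `K`, the quadratic form of `K` is small in average over
orthonormal families moved by a power bounded operator. -/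
theorem sum_form_le {K T : H →L[ℂ] H} (hK : ∀ c : ℝ, 0 < c → Small K c) {M : ℝ}
    (hM0 : 0 < M) (hM : ∀ n, ‖T ^ n‖ ≤ M) (η : ℝ) (hη : 0 < η) :
    ∃ D : ℝ, ∀ (N : ℕ) (x : ℕ → H), Orthonormal ℂ x → ∀ n : ℕ,
      ∑ i ∈ Finset.range N, ‖⟪(T ^ n) (x i), K ((T ^ n) (x i))⟫_ℂ‖ ≤ N * η + D := by
  obtain ⟨F, hF, hFs⟩ := hK (η / 2 / M ^ 2) (by positivity)
  have := hF
  set b := stdOrthonormalBasis ℂ F with hb
  set r := Module.finrank ℂ F with hr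
  set C : ℝ := (‖K‖ * M) ^ 2 / (2 * η) with hC
  have hC0 : 0 ≤ C := by positivity
  refine ⟨C * (r * M ^ 2), ?_⟩
  intro N x hx n
  have hone : ∀ i, ‖⟪(T ^ n) (x i), K ((T ^ n) (x i))⟫_ℂ‖ ≤
      η + C * ∑ j : Fin r, ‖⟪(b j : H), (T ^ n) (x i)⟫_ℂ‖ ^ 2 := by
    intro i
    set u := (T ^ n) (x i) with hu
    have hun : ‖u‖ ≤ M := by
      have := (T ^ n).le_opNorm (x i)
      rw [hx.1 i, mul_one] at this
      exact this.trans (hM n)
    set p : H := F.starProjection u with hp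
    set v := u - p with hv
    have hvF : v ∈ Fᗮ := Submodule.sub_starProjection_mem_orthogonal u
    have hvn : ‖v‖ ≤ M := by
      refine le_trans ?_ hun
      have h1 : ‖u‖ ^ 2 = ‖p‖ ^ 2 + ‖v‖ ^ 2 := by
        rw [Submodule.norm_sq_eq_add_norm_sq_starProjection u F, hp, hv]
        congr 2
        rw [Submodule.starProjection_orthogonal_val]
      have h2 : ‖v‖ ^ 2 ≤ ‖u‖ ^ 2 := by rw [h1]; nlinarith [sq_nonneg ‖p‖]
      exact (abs_le_of_sq_le_sq' h2 (norm_nonneg _)).2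
    have hpn : ‖p‖ ^ 2 = ∑ j : Fin r, ‖⟪(b j : H), u⟫_ℂ‖ ^ 2 := by
      have h1 : p = ((F.orthogonalProjectionOnto u : F) : H) := rfl
      have h0 : ‖((F.orthogonalProjectionOnto u : F) : H)‖ = ‖F.orthogonalProjectionOnto u‖ := rfl
      rw [h1, h0, ← b.sum_sq_norm_inner_right (F.orthogonalProjectionOnto u)]
      apply Finset.sum_congr rfl
      intro j _
      congr 2
      rw [Submodule.inner_orthogonalProjectionOnto_eq_of_mem_left]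
    have hsplit : ⟪u, K u⟫_ℂ = ⟪u, K v⟫_ℂ + ⟪u, K p⟫_ℂ := by
      rw [← inner_add_right, ← map_add, hv, sub_add_cancel]
    have h1 : ‖⟪u, K v⟫_ℂ‖ ≤ η / 2 := by
      calc ‖⟪u, K v⟫_ℂ‖ ≤ ‖u‖ * ‖K v‖ := norm_inner_le_norm _ _
        _ ≤ M * (η / 2 / M ^ 2 * M) := by
            gcongr
            exact (hFs v hvF).trans (by gcongr)
        _ = η / 2 := by field_simp
    have h2 : ‖⟪u, K p⟫_ℂ‖ ≤ η / 2 + C * ‖p‖ ^ 2 := by
      have h3 : ‖⟪u, K p⟫_ℂ‖ ≤ (‖K‖ * M) * ‖p‖ := by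
        calc ‖⟪u, K p⟫_ℂ‖ ≤ ‖u‖ * ‖K p‖ := norm_inner_le_norm _ _
          _ ≤ M * (‖K‖ * ‖p‖) := by gcongr; exact K.le_opNorm p
          _ = _ := by ring
      have h4 : (‖K‖ * M) * ‖p‖ ≤ η / 2 + C * ‖p‖ ^ 2 := by
        have h5 : C * ‖p‖ ^ 2 = (‖K‖ * M * ‖p‖) ^ 2 / (2 * η) := by rw [hC]; ring
        rw [h5]
        have h6 : 0 ≤ (‖K‖ * M * ‖p‖ - η) ^ 2 / (2 * η) := by positivity
        have h7 : (‖K‖ * M * ‖p‖ - η) ^ 2 / (2 * η) =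
            (‖K‖ * M * ‖p‖) ^ 2 / (2 * η) - ‖K‖ * M * ‖p‖ + η / 2 := by
          field_simp; ring
        linarith
      exact h3.trans h4
    rw [hsplit, ← hpn]
    calc ‖⟪u, K v⟫_ℂ + ⟪u, K p⟫_ℂ‖ ≤ ‖⟪u, K v⟫_ℂ‖ + ‖⟪u, K p⟫_ℂ‖ := norm_add_le _ _
      _ ≤ η / 2 + (η / 2 + C * ‖p‖ ^ 2) := add_le_add h1 h2
      _ = _ := by ring
  have hbes : ∑ i ∈ Finset.range N, ∑ j : Fin r, ‖⟪(b j : H), (T ^ n) (x i)⟫_ℂ‖ ^ 2 ≤
      r * M ^ 2 := by
    rw [Finset.sum_comm]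
    have h1 : ∀ j : Fin r, ∑ i ∈ Finset.range N, ‖⟪(b j : H), (T ^ n) (x i)⟫_ℂ‖ ^ 2 ≤ M ^ 2 := by
      intro j
      have h2 : ∀ i, ‖⟪(b j : H), (T ^ n) (x i)⟫_ℂ‖ =
          ‖⟪x i, (ContinuousLinearMap.adjoint (T ^ n)) (b j : H)⟫_ℂ‖ := by
        intro i
        rw [ContinuousLinearMap.adjoint_inner_right, ← inner_conj_symm, RCLike.norm_conj]
      simp_rw [h2]
      refine (hx.sum_inner_products_le _).trans ?_
      have h3 : ‖(ContinuousLinearMap.adjoint (T ^ n)) (b j : H)‖ ≤ M := by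
        refine (ContinuousLinearMap.le_opNorm _ _).trans ?_
        have h4 : ‖(b j : H)‖ = 1 := by
          exact b.orthonormal.1 j
        rw [h4, mul_one, LinearIsometryEquiv.norm_map]
        exact hM n
      gcongr
    calc ∑ j : Fin r, ∑ i ∈ Finset.range N, ‖⟪(b j : H), (T ^ n) (x i)⟫_ℂ‖ ^ 2
        ≤ ∑ _j : Fin r, M ^ 2 := Finset.sum_le_sum fun j _ => h1 j
      _ = r * M ^ 2 := by simp
  calc ∑ i ∈ Finset.range N, ‖⟪(T ^ n) (x i), K ((T ^ n) (x i))⟫_ℂ‖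
      ≤ ∑ i ∈ Finset.range N, (η + C * ∑ j : Fin r, ‖⟪(b j : H), (T ^ n) (x i)⟫_ℂ‖ ^ 2) :=
        Finset.sum_le_sum fun i _ => hone i
    _ = N * η + C * ∑ i ∈ Finset.range N, ∑ j : Fin r, ‖⟪(b j : H), (T ^ n) (x i)⟫_ℂ‖ ^ 2 := by
        rw [Finset.sum_add_distrib, Finset.mul_sum]; simp
    _ ≤ N * η + C * (r * M ^ 2) := by gcongr

end Q93.Asym
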